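import Pool.Agent.Y501.SY.AmenU
import Pool.Agent.Y945.SY.Desc1

/-!
Averaging an exact pair over an amenable covering of an open subset (the average is computed as in
the proof of `amenU`, the descent is that of `t_DESC1`, combined with a cutoff function).
-/

set_option autoImplicit false

open Set Filter Topology MeasureTheory
open scoped Manifold ContDiff

noncomputable section

namespace Pool.Agent.K3h41.SYAvg

open Pool.Agent.Y501.SY Pool.Agent.Y658.SY Pool.Agent.Y484.SY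

section inv

variable {d : ℕ} {Z : Type} [TopologicalSpace Z] [ChartedSpace (E d) Z]
  [IsManifold (𝓡 d) ∞ Z] {Γ : Type} [Group Γ] [MulAction Γ Z]

/-- The average of a one-form with bounded translates, with its exterior derivative. -/
theorem avgInv (hBT : S_BT) (hM1 : S_MEAN1) {m : (Γ → ℝ) → ℝ} (hm : IsMean m)
    (hsm : ∀ γ : Γ, ContMDiff (𝓡 d) (𝓡 d) ∞ (fun z : Z => γ • z))
    {β : Form d Z 1} {η : Form d Z 2} (hβ : IsSmooth β) (hη : IsSmooth η) (hβη : IsD β η)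
    (hbt : BoundedTranslates1 (Γ := Γ) β) :
    ∃ (β' : Form d Z 1) (η' : Form d Z 2), IsSmooth β' ∧ IsSmooth η' ∧ IsD β' η' ∧
      (∀ g : Γ, pull1 (d := d) (fun z : Z => g • z) β' = β') ∧
      (∀ g : Γ, pull (d := d) (fun z : Z => g • z) η' = η') ∧
      ∀ (z : Z) (u : Fin 2 → TangentSpace (𝓡 d) z),
        Bdd (fun γ : Γ => pull (d := d) (fun z : Z => γ • z) η z u) ∧
        η' z u = m (fun γ : Γ => pull (d := d) (fun z : Z => γ • z) η z u) := by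
  have hbt2 := hBT d Z Γ hsm β η hβ hη hβη hbt
  obtain ⟨β', η', hβ', hη', hβη', hav1, hav2⟩ := hM1 Pool.Agent.Y153.SY.t_AVG d Z Γ m hm hsm
    β η hβ hη hβη hbt hbt2
  have hcomp : ∀ (γ g : Γ), (fun z : Z => (γ * g) • z) =
      (fun z : Z => γ • z) ∘ (fun z : Z => g • z) := by
    intro γ g
    funext z; exact mul_smul γ g z
  have hinv1 : ∀ g : Γ, pull1 (d := d) (fun z : Z => g • z) β' = β' := by
    intro g
    funext z
    ext u
    have e1 := pull1_apply (fun z : Z => g • z) β' z u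
    rw [e1, (hav1 _ _).2, (hav1 _ _).2]
    have e2 : (fun γ : Γ => pull1 (d := d) (fun z : Z => γ • z) β (g • z)
        ![mfderiv (𝓡 d) (𝓡 d) (fun z : Z => g • z) z (u 0)]) =
        fun γ : Γ => (fun γ : Γ => pull1 (d := d) (fun z : Z => γ • z) β z u) (γ * g) := by
      funext γ
      have h2 : ∀ u : TangentSpace (𝓡 d) z,
          mfderiv (𝓡 d) (𝓡 d) ((fun z : Z => γ • z) ∘ (fun z : Z => g • z)) z u =
          mfderiv (𝓡 d) (𝓡 d) (fun z : Z => γ • z) (g • z)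
            (mfderiv (𝓡 d) (𝓡 d) (fun z : Z => g • z) z u) := by
        intro u
        rw [mfderiv_comp z ((hsm γ (g • z)).mdifferentiableAt (by simp))
          ((hsm g z).mdifferentiableAt (by simp))]
        rfl
      change _ = pull1 (d := d) (fun z : Z => (γ * g) • z) β z u
      rw [hcomp, pull1_apply, pull1_apply, h2]
      rfl
    rw [e2, hm.inv g _ (hav1 z u).1]
  have hinv2 : ∀ g : Γ, pull (d := d) (fun z : Z => g • z) η' = η' := by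
    intro g
    funext z
    ext u
    have hu : ![u 0, u 1] = u := by
      funext i; fin_cases i <;> rfl
    have e1 : pull (d := d) (fun z : Z => g • z) η' z u =
        η' (g • z) ![mfderiv (𝓡 d) (𝓡 d) (fun z : Z => g • z) z (u 0),
          mfderiv (𝓡 d) (𝓡 d) (fun z : Z => g • z) z (u 1)] := by
      rw [← pull_apply, hu]
    rw [e1, (hav2 _ _).2, (hav2 _ _).2]
    have e2 : (fun γ : Γ => pull (d := d) (fun z : Z => γ • z) η (g • z)
        ![mfderiv (𝓡 d) (𝓡 d) (fun z : Z => g • z) z (u 0),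
          mfderiv (𝓡 d) (𝓡 d) (fun z : Z => g • z) z (u 1)]) =
        fun γ : Γ => (fun γ : Γ => pull (d := d) (fun z : Z => γ • z) η z u) (γ * g) := by
      funext γ
      rw [pull_mul hsm, hu]
    rw [e2, hm.inv g _ (hav2 z u).1]
  exact ⟨β', η', hβ', hη', hβη', hinv1, hinv2, hav2⟩

end inv

section desc

variable {d : ℕ} {Z X : Type} [TopologicalSpace Z] [ChartedSpace (E d) Z]
  [TopologicalSpace X] [ChartedSpace (E d) X]
  {Γ : Type} [Group Γ] [MulAction Γ Z] {pr : Z → X}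

open Pool.Agent.Y945.SY in
/-- invariant forms descend to forms on `X`, zero outside of the image -/
theorem descL {k : ℕ} (hΓ : ∀ γ : Γ, ContMDiff (𝓡 d) (𝓡 d) ∞ (fun z : Z => γ • z))
    (hloc : IsLocalDiffeomorph (𝓡 d) (𝓡 d) ∞ pr)
    (hfib : ∀ z z' : Z, pr z = pr z' ↔ ∃ γ : Γ, γ • z = z')
    [IsManifold (𝓡 d) ∞ Z] [IsManifold (𝓡 d) ∞ X]
    (w : Form d Z k) (hinv : ∀ γ : Γ, pl (d := d) (fun z : Z => γ • z) w = w) :
    ∃ σ : Form d X k, pl (d := d) pr σ = w := by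
  classical
  have hn : (∞ : WithTop ℕ∞) ≠ 0 := by simp
  have hB : ∀ z : Z, ∃ B : E d ≃L[ℝ] E d,
      (B : E d →L[ℝ] E d) = mfderiv (𝓡 d) (𝓡 d) pr z := fun z =>
    ⟨(hloc z).mfderivToContinuousLinearEquiv hn, (hloc z).mfderivToContinuousLinearEquiv_coe hn⟩
  choose B hB using hB
  have hmp : ∀ z, MDifferentiableAt (𝓡 d) (𝓡 d) pr z := fun z => (hloc z).mdifferentiableAt hn
  let σ : Form d X k := fun x => if h : ∃ z, pr z = x then
    (w h.choose : (E d) [⋀^Fin k]→L[ℝ] ℝ).compContinuousLinearMap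
      ((B h.choose).symm : E d →L[ℝ] E d) else 0
  have hprγ : ∀ (γ : Γ) (z : Z), pr (γ • z) = pr z := fun γ z =>
    ((hfib z (γ • z)).2 ⟨γ, rfl⟩).symm
  refine ⟨σ, funext ?_⟩
  intro z
  have hex : ∃ y, pr y = pr z := ⟨z, rfl⟩
  obtain ⟨γ, hγ⟩ := (hfib z hex.choose).1 hex.choose_spec.symm
  have h1 : pl (d := d) (fun z : Z => γ • z) w z = w z := congrFun (hinv γ) z
  have hmd : MDifferentiableAt (𝓡 d) (𝓡 d) (fun z : Z => γ • z) z :=
    (hΓ γ z).mdifferentiableAt hn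
  have h2 : ∀ v : E d, (mfderiv (𝓡 d) (𝓡 d) pr z : E d →L[ℝ] E d) v =
      (mfderiv (𝓡 d) (𝓡 d) pr (γ • z) : E d →L[ℝ] E d)
        ((mfderiv (𝓡 d) (𝓡 d) (fun z : Z => γ • z) z : E d →L[ℝ] E d) v) := by
    intro v
    have h3 : (mfderiv (𝓡 d) (𝓡 d) (pr ∘ (fun z : Z => γ • z)) z : E d →L[ℝ] E d) =
        (mfderiv (𝓡 d) (𝓡 d) pr (γ • z) : E d →L[ℝ] E d).comp
          (mfderiv (𝓡 d) (𝓡 d) (fun z : Z => γ • z) z : E d →L[ℝ] E d) :=
      mfderiv_comp z (hmp _) hmd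
    have h4 : pr ∘ (fun z : Z => γ • z) = pr := funext fun z => hprγ γ z
    rw [h4] at h3
    exact congrArg (fun T : E d →L[ℝ] E d => T v) h3
  have claim : ∀ (y : Z), γ • z = y → ∀ v : Fin k → E d,
      (w y : (E d) [⋀^Fin k]→L[ℝ] ℝ)
        (fun i => (B y).symm ((mfderiv (𝓡 d) (𝓡 d) pr z : E d →L[ℝ] E d) (v i))) =
      (w z : (E d) [⋀^Fin k]→L[ℝ] ℝ) v := by
    rintro _ rfl v
    have h5 : (fun i => (B (γ • z)).symm
        ((mfderiv (𝓡 d) (𝓡 d) pr z : E d →L[ℝ] E d) (v i))) =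
        fun i => (mfderiv (𝓡 d) (𝓡 d) (fun z : Z => γ • z) z : E d →L[ℝ] E d) (v i) := by
      funext i
      exact ((B (γ • z)).symm_apply_eq).2 ((h2 (v i)).trans
        (congrArg (fun T : E d →L[ℝ] E d =>
          T ((mfderiv (𝓡 d) (𝓡 d) (fun z : Z => γ • z) z : E d →L[ℝ] E d) (v i)))
          (hB (γ • z)).symm))
    rw [h5]
    exact congrArg (fun T : (E d) [⋀^Fin k]→L[ℝ] ℝ => T v) h1
  ext v
  have h6 : σ (pr z) = (w hex.choose : (E d) [⋀^Fin k]→L[ℝ] ℝ).compContinuousLinearMap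
      ((B hex.choose).symm : E d →L[ℝ] E d) := dif_pos hex
  have h7 : pl (d := d) pr σ z v = (σ (pr z) : (E d) [⋀^Fin k]→L[ℝ] ℝ)
      (fun i => (mfderiv (𝓡 d) (𝓡 d) pr z : E d →L[ℝ] E d) (v i)) := rfl
  rw [h7, h6]
  exact claim _ hγ v

open Pool.Agent.Y945.SY in
/-- local sections -/
theorem keyL (hloc : IsLocalDiffeomorph (𝓡 d) (𝓡 d) ∞ pr)
    [IsManifold (𝓡 d) ∞ Z] [IsManifold (𝓡 d) ∞ X] (U : Set (E d)) (φ : E d → X)
    (hU : IsOpen U) (hφ : ContMDiffOn (𝓡 d) (𝓡 d) ∞ φ U) (p₀ : E d) (hp₀ : p₀ ∈ U)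
    (hr : φ p₀ ∈ range pr) :
    ∃ (U' : Set (E d)) (ψ : E d → Z), IsOpen U' ∧ p₀ ∈ U' ∧ U' ⊆ U ∧
      ContMDiffOn (𝓡 d) (𝓡 d) ∞ ψ U' ∧ ∀ (k : ℕ) (σ : Form d X k) (w : Form d Z k),
        pl (d := d) pr σ = w → ∀ p ∈ U', pb φ σ p = pb ψ w p := by
  have hn : (∞ : WithTop ℕ∞) ≠ 0 := by simp
  have hmp : ∀ z, MDifferentiableAt (𝓡 d) (𝓡 d) pr z := fun z => (hloc z).mdifferentiableAt hn
  obtain ⟨z₀, hz₀⟩ := hr
  obtain ⟨Φ, hz, hΦ⟩ := hloc z₀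
  have hU' : IsOpen (U ∩ φ ⁻¹' Φ.target) :=
    hφ.continuousOn.isOpen_inter_preimage hU Φ.open_target
  have hψ : ContMDiffOn (𝓡 d) (𝓡 d) ∞ (Φ.symm ∘ φ) (U ∩ φ ⁻¹' Φ.target) :=
    Φ.contMDiffOn_invFun.comp (hφ.mono inter_subset_left) fun p hp => hp.2
  refine ⟨U ∩ φ ⁻¹' Φ.target, Φ.symm ∘ φ, hU', ⟨hp₀, ?_⟩, inter_subset_left, hψ, ?_⟩
  · show φ p₀ ∈ Φ.target
    rw [← hz₀, hΦ hz]
    exact Φ.map_source hz
  · intro k σ w hσw p hp
    have hψp : MDifferentiableAt (𝓡 d) (𝓡 d) (Φ.symm ∘ φ) p :=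
      ((hψ p hp).contMDiffAt (hU'.mem_nhds hp)).mdifferentiableAt hn
    have h1 : φ =ᶠ[𝓝 p] pr ∘ (Φ.symm ∘ φ) := by
      filter_upwards [hU'.mem_nhds hp] with r hr
      have h2 : Φ.symm (φ r) ∈ Φ.source := Φ.map_target hr.2
      show φ r = pr (Φ.symm (φ r))
      rw [hΦ h2]
      exact (Φ.right_inv hr.2).symm
    have h2 : pb φ σ p = pbk σ (pr ∘ (Φ.symm ∘ φ)) p := pbk_congr σ h1
    have h3 : pl (d := d) pr σ ((Φ.symm ∘ φ) p) = w ((Φ.symm ∘ φ) p) := congrFun hσw _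
    rw [h2, pbk_comp σ (hmp _) hψp]
    exact congrArg (fun T : (E d) [⋀^Fin k]→L[ℝ] ℝ => T.compContinuousLinearMap
      (mfderiv (𝓡 d) (𝓡 d) (Φ.symm ∘ φ) p : E d →L[ℝ] E d)) h3

theorem wedge1_zero {V : Type} [NormedAddCommGroup V] [NormedSpace ℝ V]
    (b : V [⋀^Fin 1]→L[ℝ] ℝ) : wedge1 (0 : V →L[ℝ] ℝ) b = 0 := by
  ext v
  rw [wedge1_apply]
  simp

end desc

section main

variable {d : ℕ} {Z X : Type} [TopologicalSpace Z] [ChartedSpace (E d) Z]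
  [IsManifold (𝓡 d) ∞ Z] [TopologicalSpace X] [ChartedSpace (E d) X]
  [IsManifold (𝓡 d) ∞ X] {Γ : Type} [Group Γ] [MulAction Γ Z]

/-- An average over a covering of an open set, multiplied by a cutoff function. -/
theorem avgLocal (hBT : S_BT) (hM1 : S_MEAN1) {m : (Γ → ℝ) → ℝ} (hm : IsMean m)
    (hsm : ∀ γ : Γ, ContMDiff (𝓡 d) (𝓡 d) ∞ (fun z : Z => γ • z)) {pr : Z → X}
    (hpr : IsLocalDiffeomorph (𝓡 d) (𝓡 d) ∞ pr)
    (hfib : ∀ z z' : Z, pr z = pr z' ↔ ∃ γ : Γ, γ • z = z')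
    [CompactSpace X] [T2Space X] {C : Set X} (hC : IsClosed C) (hCr : C ⊆ range pr)
    {β : Form d Z 1} {η : Form d Z 2} (hβ : IsSmooth β) (hη : IsSmooth η) (hβη : IsD β η)
    (hbt : BoundedTranslates1 (Γ := Γ) β) :
    ∃ (α : Form d X 1) (ρ : Form d X 2), IsSmooth α ∧ IsSmooth ρ ∧ IsD α ρ ∧
      (∀ (z : Z) (u : Fin 2 → TangentSpace (𝓡 d) z),
        Bdd (fun γ : Γ => pull (d := d) (fun z : Z => γ • z) η z u)) ∧
      ∀ z : Z, pr z ∈ C → ∀ u : Fin 2 → TangentSpace (𝓡 d) z,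
        pull (d := d) pr ρ z u = m (fun γ : Γ => pull (d := d) (fun z : Z => γ • z) η z u) := by
  obtain ⟨β', η', hβ', hη', hβη', hinv1, hinv2, hav⟩ := avgInv (d := d) (Z := Z) (Γ := Γ)
    hBT hM1 hm hsm hβ hη hβη hbt
  obtain ⟨α₀, hα₀⟩ := descL (k := 1) hsm hpr hfib β' hinv1
  obtain ⟨ρ₀, hρ₀⟩ := descL (k := 2) hsm hpr hfib η' hinv2
  have hopen : IsOpen (range pr) := hpr.isOpenMap.isOpen_range
  have hdis : Disjoint (range pr)ᶜ C := by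
    rw [Set.disjoint_left]
    intro x hx hx2
    exact hx (hCr hx2)
  obtain ⟨ψ, hψ0, hψ1, hψ⟩ := exists_contMDiffMap_zero_one_nhds_of_isClosed
    (n := (⊤ : ℕ∞)) (𝓡 d) hopen.isClosed_compl hC hdis
  obtain ⟨f, hff⟩ : ∃ f : X → ℝ, f = fun x => ψ x := ⟨_, rfl⟩
  have hf : SmoothFun (d := d) f := by
    rw [hff]
    exact ψ.contMDiff
  have e0 : ∀ x, x ∉ range pr → ∀ᶠ y in 𝓝 x, f y = 0 := fun x hx => by
    rw [hff]
    exact hψ0.filter_mono (nhds_le_nhdsSet hx)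
  have e1 : ∀ x ∈ C, ∀ᶠ y in 𝓝 x, f y = 1 := fun x hx => by
    rw [hff]
    exact hψ1.filter_mono (nhds_le_nhdsSet hx)
  -- vanishing near the points outside of the image
  have hz : ∀ (U : Set (E d)) (φ : E d → X), IsOpen U → ContMDiffOn (𝓡 d) (𝓡 d) ∞ φ U →
      ∀ p₀ ∈ U, φ p₀ ∉ range pr → (∀ᶠ p in 𝓝 p₀, (f ∘ φ) p = 0) := by
    intro U φ hU hφ p₀ hp₀ hr
    exact (hφ.continuousOn.continuousAt (hU.mem_nhds hp₀)).eventually (e0 _ hr)
  have hz1 : ∀ (U : Set (E d)) (φ : E d → X), IsOpen U → ContMDiffOn (𝓡 d) (𝓡 d) ∞ φ U →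
      ∀ p₀ ∈ U, φ p₀ ∉ range pr →
        pb φ (fun x => f x • α₀ x : Form d X 1) =ᶠ[𝓝 p₀] fun _ => 0 := by
    intro U φ hU hφ p₀ hp₀ hr
    filter_upwards [hz U φ hU hφ p₀ hp₀ hr] with p hp
    have h1 : pb φ (fun x => f x • α₀ x : Form d X 1) p = (f ∘ φ) p • pb φ α₀ p := rfl
    rw [h1, hp, zero_smul]
  have hz2 : ∀ (U : Set (E d)) (φ : E d → X), IsOpen U → ContMDiffOn (𝓡 d) (𝓡 d) ∞ φ U →
      ∀ p₀ ∈ U, φ p₀ ∉ range pr →
        pb φ (prodD f α₀ ρ₀) =ᶠ[𝓝 p₀] fun _ => 0 := by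
    intro U φ hU hφ p₀ hp₀ hr
    filter_upwards [(hz U φ hU hφ p₀ hp₀ hr).eventually_nhds, hU.mem_nhds hp₀] with p hp hpU
    have h1 : (f ∘ φ) =ᶠ[𝓝 p] fun _ => 0 := hp
    rw [pb_prodD hU hφ hf hpU, h1.fderiv_eq, fderiv_fun_const, h1.eq_of_nhds]
    show wedge1 0 _ + (0 : ℝ) • _ = 0
    rw [wedge1_zero, zero_smul, add_zero]
  refine ⟨fun x => f x • α₀ x, prodD f α₀ ρ₀, ?_, ?_, ?_, fun z u => (hav z u).1, ?_⟩
  · intro U φ hU hφ p₀ hp₀
    by_cases hr : φ p₀ ∈ range pr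
    · obtain ⟨U', ψ, hU', hp, hUU, hψ, he⟩ := keyL hpr U φ hU hφ p₀ hp₀ hr
      have h1 := ((comp_smooth hφ hf).contDiffAt (hU.mem_nhds hp₀)).smul
        ((hβ' U' ψ hU' hψ).contDiffAt (hU'.mem_nhds hp))
      have h2 : pb φ (fun x => f x • α₀ x : Form d X 1) =ᶠ[𝓝 p₀]
          fun p => (f ∘ φ) p • pb ψ β' p := by
        filter_upwards [hU'.mem_nhds hp] with p hp
        have h3 : pb φ (fun x => f x • α₀ x : Form d X 1) p = (f ∘ φ) p • pb φ α₀ p := rfl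
        rw [h3, he 1 α₀ β' hα₀ p hp]
      exact (h1.congr_of_eventuallyEq h2).contDiffWithinAt
    · exact ((contDiffAt_const (c := (0 : (E d) [⋀^Fin 1]→L[ℝ] ℝ))).congr_of_eventuallyEq
        (hz1 U φ hU hφ p₀ hp₀ hr)).contDiffWithinAt
  · intro U φ hU hφ p₀ hp₀
    by_cases hr : φ p₀ ∈ range pr
    · obtain ⟨U', ψ, hU', hp, hUU, hψ, he⟩ := keyL hpr U φ hU hφ p₀ hp₀ hr
      have h1 : ContDiffOn ℝ ∞ (fun p => wedge1 (fderiv ℝ (f ∘ φ) p) (pb ψ β' p) +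
          (f ∘ φ) p • pb ψ η' p) U' :=
        (smooth_wedge1 (((comp_smooth hφ hf).fderiv_of_isOpen hU (by simp)).mono hUU)
          (hβ' U' ψ hU' hψ)).add (((comp_smooth hφ hf).mono hUU).smul (hη' U' ψ hU' hψ))
      have h2 : pb φ (prodD f α₀ ρ₀) =ᶠ[𝓝 p₀] fun p => wedge1 (fderiv ℝ (f ∘ φ) p) (pb ψ β' p) +
          (f ∘ φ) p • pb ψ η' p := by
        filter_upwards [hU'.mem_nhds hp] with p hp
        rw [pb_prodD hU hφ hf (hUU hp), he 1 α₀ β' hα₀ p hp, he 2 ρ₀ η' hρ₀ p hp]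
      exact ((h1.contDiffAt (hU'.mem_nhds hp)).congr_of_eventuallyEq h2).contDiffWithinAt
    · exact ((contDiffAt_const (c := (0 : (E d) [⋀^Fin 2]→L[ℝ] ℝ))).congr_of_eventuallyEq
        (hz2 U φ hU hφ p₀ hp₀ hr)).contDiffWithinAt
  · intro U φ hU hφ p₀ hp₀
    by_cases hr : φ p₀ ∈ range pr
    · obtain ⟨U', ψ, hU', hp, hUU, hψ, he⟩ := keyL hpr U φ hU hφ p₀ hp₀ hr
      have h2 : pb φ (fun x => f x • α₀ x : Form d X 1) =ᶠ[𝓝 p₀]
          fun p => (f ∘ φ) p • pb ψ β' p := by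
        filter_upwards [hU'.mem_nhds hp] with p hp
        have h3 : pb φ (fun x => f x • α₀ x : Form d X 1) p = (f ∘ φ) p • pb φ α₀ p := rfl
        rw [h3, he 1 α₀ β' hα₀ p hp]
      have hF : DifferentiableAt ℝ (f ∘ φ) p₀ :=
        ((comp_smooth hφ hf).contDiffAt (hU.mem_nhds hp₀)).differentiableAt (by simp)
      have hB : DifferentiableAt ℝ (pb ψ β') p₀ :=
        ((hβ' U' ψ hU' hψ).contDiffAt (hU'.mem_nhds hp)).differentiableAt (by simp)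
      rw [h2.extDeriv_eq, ext_prod hF hB, hβη' U' ψ hU' hψ p₀ hp, pb_prodD hU hφ hf hp₀,
        he 1 α₀ β' hα₀ p₀ hp, he 2 ρ₀ η' hρ₀ p₀ hp]
    · rw [(hz1 U φ hU hφ p₀ hp₀ hr).extDeriv_eq, (hz2 U φ hU hφ p₀ hp₀ hr).eq_of_nhds]
      unfold extDeriv
      rw [fderiv_fun_const]
      exact (ContinuousAlternatingMap.alternatizeUncurryFinCLM ℝ (E d) ℝ).map_zero
  · intro z hzC u
    rw [← (hav z u).2]
    have h1 : dd (d := d) f (pr z) = 0 := by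
      ext v
      exact dd_eventually_const (e1 _ hzC) v
    have h2 : prodD f α₀ ρ₀ (pr z) = ρ₀ (pr z) := by
      have h3 : duw f α₀ (pr z) = 0 := by
        show wedge1 (V := E d) (dd f (pr z)) (α₀ (pr z)) = 0
        rw [h1]
        exact wedge1_zero _
      show duw f α₀ (pr z) + f (pr z) • ρ₀ (pr z) = ρ₀ (pr z)
      rw [h3, (e1 _ hzC).self_of_nhds, one_smul, zero_add]
    have h4 : pull (d := d) pr (prodD f α₀ ρ₀) z = pull (d := d) pr ρ₀ z := by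
      unfold pull
      rw [h2]
    rw [h4]
    have h5 : pull (d := d) pr ρ₀ z = η' z := congrFun hρ₀ z
    rw [h5]

end main

end Pool.Agent.K3h41.SYAvg
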