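import Pool.Agent.K3h41.SYA.Pub
import Pool.Agent.K3h41.SYA.Avg
import Pool.Agent.R772.BridgeM
import Pool.Agent.Y501.SY.FinalU

/-!
Two-forms with nonnegative top power and amenable coverings: the equivalences.
-/

set_option autoImplicit false

open Set Filter Topology MeasureTheory
open scoped Manifold ContDiff

noncomputable section

namespace Pool.Agent.K3h41.SYA

open Pool.Agent.Y501.SYP
open Pool.Agent.Y501
open Pool.Agent.R772.SYK
open Pool.Agent.R772.SYF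
open Pool.Agent.R772.SYD
open Pool.Agent.R772.SYM

/-! ### Means and finite averages -/

section mean

variable {Γ : Type} [Group Γ] {μ : (Γ → ℝ) → ℝ}

theorem mean_const (hμ : IsMean μ) (c : ℝ) : μ (fun _ => c) = c := by
  have h4 := hμ.smul c (fun _ => 1) ⟨1, fun _ => by simp⟩
  rw [hμ.one] at h4
  simpa using h4

theorem bdd_smul {F : Γ → ℝ} (c : ℝ) (h : Bdd F) : Bdd (fun γ => c * F γ) := by
  obtain ⟨C, hC⟩ := h
  refine ⟨|c| * C, fun γ => ?_⟩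
  rw [abs_mul]
  exact mul_le_mul_of_nonneg_left (hC γ) (abs_nonneg c)

theorem bdd_add {F G : Γ → ℝ} (h : Bdd F) (h' : Bdd G) : Bdd (fun γ => F γ + G γ) := by
  obtain ⟨C, hC⟩ := h
  obtain ⟨D, hD⟩ := h'
  exact ⟨C + D, fun γ => (abs_add_le _ _).trans (add_le_add (hC γ) (hD γ))⟩

theorem bdd_const (c : ℝ) : Bdd (fun _ : Γ => c) := ⟨|c|, fun _ => le_rfl⟩

theorem bdd_shift {F : Γ → ℝ} (s : Γ) (h : Bdd F) : Bdd (fun γ => F (γ * s)) := by
  obtain ⟨C, hC⟩ := h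
  exact ⟨C, fun γ => hC _⟩

theorem bdd_sum {ι : Type*} (T : Finset ι) {F : ι → Γ → ℝ} (h : ∀ i ∈ T, Bdd (F i)) :
    Bdd (fun γ => ∑ i ∈ T, F i γ) := by
  classical
  induction T using Finset.induction_on with
  | empty => simpa using bdd_const (Γ := Γ) 0
  | insert a T ha ih =>
    have h1 : (fun γ => ∑ i ∈ insert a T, F i γ) = fun γ => F a γ + ∑ i ∈ T, F i γ := by
      funext γ
      rw [Finset.sum_insert ha]
    rw [h1]
    exact bdd_add (h a (Finset.mem_insert_self _ _))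
      (ih fun i hi => h i (Finset.mem_insert_of_mem hi))

theorem mean_sum (hμ : IsMean μ) {ι : Type*} (T : Finset ι) {F : ι → Γ → ℝ}
    (h : ∀ i ∈ T, Bdd (F i)) : μ (fun γ => ∑ i ∈ T, F i γ) = ∑ i ∈ T, μ (F i) := by
  classical
  induction T using Finset.induction_on with
  | empty => simpa using mean_const hμ 0
  | insert a T ha ih =>
    have h1 : (fun γ => ∑ i ∈ insert a T, F i γ) = fun γ => F a γ + ∑ i ∈ T, F i γ := by
      funext γ
      rw [Finset.sum_insert ha]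
    have h2 : ∀ i ∈ T, Bdd (F i) := fun i hi => h i (Finset.mem_insert_of_mem hi)
    rw [h1, hμ.add _ _ (h a (Finset.mem_insert_self _ _)) (bdd_sum T h2), ih h2,
      Finset.sum_insert ha]

/-- lower bounds for finite averages are lower bounds for the mean -/
theorem mean_ge (hμ : IsMean μ) {F : Γ → ℝ} (hF : Bdd F) (c : ℝ) {S : Finset Γ}
    (hS : S.Nonempty) (h : ∀ γ : Γ, c * S.card ≤ ∑ s ∈ S, F (γ * s)) : c ≤ μ F := by
  have h1 : μ (fun γ => ∑ s ∈ S, F (γ * s)) = ∑ s ∈ S, μ F := by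
    rw [mean_sum hμ S (F := fun s γ => F (γ * s)) (fun s _ => bdd_shift s hF)]
    exact Finset.sum_congr rfl fun s _ => hμ.inv s F hF
  have hb : Bdd (fun γ => ∑ s ∈ S, F (γ * s)) :=
    bdd_sum S (F := fun s γ => F (γ * s)) (fun s _ => bdd_shift s hF)
  have h2 := hμ.nonneg (fun γ => (∑ s ∈ S, F (γ * s)) + (-(c * S.card)))
    (bdd_add hb (bdd_const _)) (fun γ => by have := h γ; linarith)
  rw [hμ.add _ _ hb (bdd_const _), mean_const hμ, h1, Finset.sum_const, nsmul_eq_mul] at h2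
  have hc : (0 : ℝ) < S.card := by exact_mod_cast Finset.card_pos.2 hS
  have h3 : (0 : ℝ) ≤ S.card * (μ F - c) := by linarith
  have h4 := nonneg_of_mul_nonneg_right h3 hc
  linarith

theorem AvgNonneg.mean (hμ : IsMean μ) {F : Γ → ℝ} (hF : Bdd F) (h : AvgNonneg F) :
    0 ≤ μ F := by
  by_contra hlt
  push Not at hlt
  obtain ⟨S, hS, hSa⟩ := h (-(μ F) / 2) (by linarith)
  have h1 := mean_ge hμ hF (μ F / 2) hS (fun γ => by
    have := hSa γ
    linarith)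
  linarith

theorem AvgPos.mean (hμ : IsMean μ) {F : Γ → ℝ} (hF : Bdd F) (h : AvgPos F) : 0 < μ F := by
  obtain ⟨c, hc, S, hS, hSa⟩ := h
  exact hc.trans_le (mean_ge hμ hF c hS hSa)

theorem AvgPos.nonneg {F : Γ → ℝ} (h : AvgPos F) : AvgNonneg F := by
  obtain ⟨c, hc, S, hS, hSa⟩ := h
  intro ε hε
  refine ⟨S, hS, fun γ => le_trans ?_ (hSa γ)⟩
  have h0 : (0 : ℝ) ≤ S.card := Nat.cast_nonneg _
  have h1 := mul_nonneg hε.le h0
  have h2 := mul_nonneg hc.le h0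
  linarith

theorem avgPos_const {c : ℝ} (hc : 0 < c) {F : Γ → ℝ} (hF : ∀ γ, F γ = c) : AvgPos F := by
  refine ⟨c, hc, {1}, Finset.singleton_nonempty _, fun γ => ?_⟩
  rw [Finset.sum_singleton, hF, Finset.card_singleton, Nat.cast_one, mul_one]

end mean

/-! ### The form `τ ∧ s ^ m` -/

section lin

variable {V : Type} [AddCommGroup V] [Module ℝ V] [TopologicalSpace V] {m : ℕ}

/-- the coefficients of `τ ∧ s ^ m` as a linear function of the values of `τ` -/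
def coef (s : V [⋀^Fin 2]→L[ℝ] ℝ) (e : Fin (m + 1) × Fin 2 → V)
    (π : Equiv.Perm (Fin (m + 1) × Fin 2)) : ℝ :=
  ((Equiv.Perm.sign π : ℤ) : ℝ) * ∏ i : Fin m, s ![e (π (i.succ, 0)), e (π (i.succ, 1))]

theorem wedge_cons (τ s : V [⋀^Fin 2]→L[ℝ] ℝ) (e : Fin (m + 1) × Fin 2 → V) :
    wedge (Fin.cons τ (fun _ : Fin m => s)) e =
      ∑ π : Equiv.Perm (Fin (m + 1) × Fin 2), coef s e π * τ ![e (π (0, 0)), e (π (0, 1))] := by
  unfold wedge coef
  refine Finset.sum_congr rfl fun π _ => ?_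
  rw [Fin.prod_univ_succ]
  simp only [Fin.cons_zero, Fin.cons_succ]
  ring

end lin

section cov

variable {V : Type} [NormedAddCommGroup V] [NormedSpace ℝ V]
  {Z X : Type} [TopologicalSpace Z] [ChartedSpace V Z]
  [TopologicalSpace X] [ChartedSpace V X]

theorem vec2 {W : Type} (u : Fin 2 → W) : ![u 0, u 1] = u := by
  funext i
  fin_cases i <;> rfl

theorem comp2 {A B : Type} [AddCommGroup A] [Module ℝ A] [TopologicalSpace A] [AddCommGroup B]
    [Module ℝ B] [TopologicalSpace B] (τ : B [⋀^Fin 2]→L[ℝ] ℝ) (L : A →L[ℝ] B) (a b : A) :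
    (τ.compContinuousLinearMap L) ![a, b] = τ ![L a, L b] := by
  have h : (fun i : Fin 2 => L (![a, b] i)) = ![L a, L b] := by
    funext i
    fin_cases i <;> rfl
  exact congrArg τ h

theorem lift_apply (f : Z → X) (σ : Form V X 2) (z : Z) (a b : TangentSpace 𝓘(ℝ, V) z) :
    lift f σ z ![a, b] = σ (f z) ![mfderiv 𝓘(ℝ, V) 𝓘(ℝ, V) f z a, mfderiv 𝓘(ℝ, V) 𝓘(ℝ, V) f z b] :=
  comp2 (σ (f z)) (mfderiv 𝓘(ℝ, V) 𝓘(ℝ, V) f z) a b

/-- naturality of `τ ∧ σ ^ m` -/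
theorem mixed_lift {m : ℕ} (f : Z → X) (σ θ : Form V X 2) (z : Z) (e : Fam V m z) :
    mixed m (lift f σ) z (lift f θ z) e = mixed m σ (f z) (θ (f z)) (push f z e) := by
  unfold mixed
  rw [wedge_cons, wedge_cons]
  refine Finset.sum_congr rfl fun π _ => ?_
  unfold coef
  rw [lift_apply]
  have h1 : ∀ i : Fin m, lift f σ z ![e (π (i.succ, 0)), e (π (i.succ, 1))] =
      σ (f z) ![push f z e (π (i.succ, 0)), push f z e (π (i.succ, 1))] :=
    fun i => lift_apply f σ z _ _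
  rw [Finset.prod_congr rfl fun i _ => h1 i]
  rfl

end cov

section main

variable {m d : ℕ} {Z X : Type} [TopologicalSpace Z] [ChartedSpace (ES d) Z]
  [IsManifold 𝓘(ℝ, ES d) ∞ Z] [TopologicalSpace X] [ChartedSpace (ES d) X]
  [IsManifold 𝓘(ℝ, ES d) ∞ X] {Γ : Type} [Group Γ] [MulAction Γ Z]

attribute [local instance] Pool.Agent.Y501.SYP.cs
attribute [local instance] Pool.Agent.Y501.SYP.mf

/-- the values of the orbit function in terms of the translates -/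
theorem orbit_eq {pr : Z → X} (hpr : OpenCovering (ES d) Γ pr) (σ : Form (ES d) X 2)
    (w : Form (ES d) Z 2) (z : Z) (e : Fam (ES d) m z) (γ : Γ) :
    orbit Γ pr m σ w z e γ = ∑ π : Equiv.Perm (Fin (m + 1) × Fin 2),
      coef (lift pr σ z) e π * translate γ w z ![e (π (0, 0)), e (π (0, 1))] := by
  have hprs : ContMDiff 𝓘(ℝ, ES d) 𝓘(ℝ, ES d) ∞ pr := hpr.diffeo.contMDiff
  have hinv : lift (fun z : Z => γ • z) (lift pr σ) = lift pr σ :=
    SY.pull_inv (d := d) (Z := Z) (X := X) (Γ := Γ) hpr.smooth (pr := pr) hprs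
      (fun γ z => ((hpr.orbits z (γ • z)).2 ⟨γ, rfl⟩).symm) σ γ
  have h1 : orbit Γ pr m σ w z e γ =
      mixed m (lift (fun z : Z => γ • z) (lift pr σ)) z (lift (fun z : Z => γ • z) w z) e :=
    (mixed_lift (fun z : Z => γ • z) (lift pr σ) w z e).symm
  rw [h1, hinv]
  unfold mixed
  rw [wedge_cons]
  rfl

/-- the orbit function in terms of the translates of `η` -/
theorem orbit_add {pr : Z → X} (hpr : OpenCovering (ES d) Γ pr) (σ ζ : Form (ES d) X 2)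
    (η : Form (ES d) Z 2) (z : Z) (e : Fam (ES d) m z) :
    orbit Γ pr m σ (addF (lift pr ζ) η) z e =
      fun γ => ∑ π : Equiv.Perm (Fin (m + 1) × Fin 2), coef (lift pr σ z) e π *
        (lift pr ζ z ![e (π (0, 0)), e (π (0, 1))] +
          translate γ η z ![e (π (0, 0)), e (π (0, 1))]) := by
  have hprs : ContMDiff 𝓘(ℝ, ES d) 𝓘(ℝ, ES d) ∞ pr := hpr.diffeo.contMDiff
  have hinv : ∀ γ : Γ, lift (fun z : Z => γ • z) (lift pr ζ) = lift pr ζ := fun γ =>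
    SY.pull_inv (d := d) (Z := Z) (X := X) (Γ := Γ) hpr.smooth (pr := pr) hprs
      (fun γ z => ((hpr.orbits z (γ • z)).2 ⟨γ, rfl⟩).symm) ζ γ
  have h1 : ∀ (γ : Γ) (u : Fin 2 → TangentSpace 𝓘(ℝ, ES d) z),
      translate γ (addF (lift pr ζ) η) z u = lift pr ζ z u + translate γ η z u := by
    intro γ u
    have h2 : translate γ (addF (lift pr ζ) η) z u =
        lift (fun z : Z => γ • z) (lift pr ζ) z u + translate γ η z u := rfl
    rw [h2, hinv]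
  funext γ
  rw [orbit_eq hpr]
  exact Finset.sum_congr rfl fun π _ => by rw [h1]

theorem bdd_orbit {pr : Z → X} (hpr : OpenCovering (ES d) Γ pr) (σ ζ : Form (ES d) X 2)
    {η : Form (ES d) Z 2} (z : Z)
    (h : ∀ u : Fin 2 → TangentSpace 𝓘(ℝ, ES d) z, Bdd (fun γ : Γ => translate γ η z u))
    (e : Fam (ES d) m z) : Bdd (orbit Γ pr m σ (addF (lift pr ζ) η) z e) := by
  rw [orbit_add hpr]
  exact bdd_sum _ (F := fun (π : Equiv.Perm (Fin (m + 1) × Fin 2)) (γ : Γ) =>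
    coef (lift pr σ z) e π * (lift pr ζ z ![e (π (0, 0)), e (π (0, 1))] +
      translate γ η z ![e (π (0, 0)), e (π (0, 1))])) fun π _ =>
    bdd_smul _ (bdd_add (bdd_const _) (h _))

/-- the mean of the orbit function -/
theorem mean_orbit {μ : (Γ → ℝ) → ℝ} (hμ : IsMean μ) {pr : Z → X}
    (hpr : OpenCovering (ES d) Γ pr) (σ ζ : Form (ES d) X 2) {η : Form (ES d) Z 2}
    {ρ : Form (ES d) X 2} (z : Z)
    (h : ∀ u : Fin 2 → TangentSpace 𝓘(ℝ, ES d) z, Bdd (fun γ : Γ => translate γ η z u))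
    (h' : ∀ u : Fin 2 → TangentSpace 𝓘(ℝ, ES d) z,
      lift pr ρ z u = μ (fun γ : Γ => translate γ η z u)) (e : Fam (ES d) m z) :
    μ (orbit Γ pr m σ (addF (lift pr ζ) η) z e) =
      mixed m σ (pr z) (addF ζ ρ (pr z)) (push pr z e) := by
  have hb : ∀ π : Equiv.Perm (Fin (m + 1) × Fin 2), Bdd (fun γ : Γ =>
      lift pr ζ z ![e (π (0, 0)), e (π (0, 1))] +
        translate γ η z ![e (π (0, 0)), e (π (0, 1))]) := fun π =>
    bdd_add (bdd_const _) (h _)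
  rw [orbit_add hpr, mean_sum hμ _ (F := fun (π : Equiv.Perm (Fin (m + 1) × Fin 2)) (γ : Γ) =>
    coef (lift pr σ z) e π * (lift pr ζ z ![e (π (0, 0)), e (π (0, 1))] +
      translate γ η z ![e (π (0, 0)), e (π (0, 1))])) fun π _ => bdd_smul _ (hb π)]
  rw [← mixed_lift]
  unfold mixed
  rw [wedge_cons]
  refine Finset.sum_congr rfl fun π _ => ?_
  rw [hμ.smul _ _ (hb π), hμ.add _ _ (bdd_const _) (h _), mean_const hμ, ← h']
  rfl

omit [IsManifold 𝓘(ℝ, ES d) ∞ Z] [IsManifold 𝓘(ℝ, ES d) ∞ X] in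
/-- every family of tangent vectors lifts to the covering -/
theorem exists_push {pr : Z → X} (hpr : OpenCovering (ES d) Γ pr) (z : Z)
    (e : Fam (ES d) m (pr z)) : ∃ e' : Fam (ES d) m z, push pr z e' = e := by
  have hbij : Function.Bijective (mfderiv 𝓘(ℝ, ES d) 𝓘(ℝ, ES d) pr z) := by
    have h1 := (hpr.diffeo z).mfderivToContinuousLinearEquiv_coe (by simp)
    rw [← h1]
    exact ((hpr.diffeo z).mfderivToContinuousLinearEquiv (by simp)).bijective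
  choose e' he' using fun k => hbij.2 (e k)
  exact ⟨e', funext he'⟩

/-- the averages, with a cutoff function -/
theorem avg [CompactSpace X] [T2Space X] {μ : (Γ → ℝ) → ℝ} (hμ : IsMean μ) {pr : Z → X}
    (hpr : OpenCovering (ES d) Γ pr) {β : Form (ES d) Z 1} {η : Form (ES d) Z 2}
    (hβ : ExactPair β η) (hbt : BoundedTranslates1 Γ β) {C : Set X} (hC : IsClosed C)
    (hCr : C ⊆ range pr) :
    ∃ (α : Form (ES d) X 1) (ρ : Form (ES d) X 2), ExactPair α ρ ∧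
      (∀ (z : Z) (u : Fin 2 → TangentSpace 𝓘(ℝ, ES d) z),
        Bdd (fun γ : Γ => translate γ η z u)) ∧
      ∀ z : Z, pr z ∈ C → ∀ u : Fin 2 → TangentSpace 𝓘(ℝ, ES d) z,
        lift pr ρ z u = μ (fun γ : Γ => translate γ η z u) := by
  obtain ⟨α, ρ, h1, h2, h3, h4, h5⟩ := SYAvg.avgLocal (d := d) (Z := Z) (X := X) (Γ := Γ)
    Pool.Agent.Y903.SY.t_BT Pool.Agent.Y455.SY.t_MEAN1
    (mean_of hμ) hpr.smooth (pr := pr) hpr.diffeo hpr.orbits hC hCr (β := β) (η := η)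
    ((smooth_iff β).1 hβ.smooth) ((smooth_iff η).1 hβ.smooth_d) ((isD_iff β η).1 hβ.isD)
    (fun U φ hU hφ => by
      have := hbt U φ ⟨hU, hφ⟩
      exact ⟨this.smooth, this.bound⟩)
  exact ⟨α, ρ, ⟨(smooth_iff α).2 h1, (smooth_iff ρ).2 h2, (isD_iff α ρ).2 h3⟩, h4, h5⟩

/-- averaging a semipositive form -/
theorem descend [CompactSpace X] [T2Space X] {μ : (Γ → ℝ) → ℝ} (hμ : IsMean μ) {pr : Z → X}
    (hpr : OpenCovering (ES d) Γ pr) {vol : TopForm (ES d) X m} (σ ζ : Form (ES d) X 2)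
    {β : Form (ES d) Z 1} {η : Form (ES d) Z 2} (hβ : ExactPair β η)
    (hbt : BoundedTranslates1 Γ β) {C : Set X} (hC : IsClosed C)
    (h : SemiPosOver Γ (fun F => 0 ≤ μ F) (fun F => 0 < μ F) pr vol σ (addF (lift pr ζ) η) C) :
    ∃ (α : Form (ES d) X 1) (ρ : Form (ES d) X 2), ExactPair α ρ ∧
      SemiPos vol σ (addF ζ ρ) C := by
  obtain ⟨α, ρ, h1, h2, h3⟩ := avg hμ hpr hβ hbt hC h.sub
  have key := fun z (hz : pr z ∈ C) e =>
    mean_orbit (m := m) hμ hpr σ ζ (η := η) (ρ := ρ) z (h2 z) (h3 z hz) e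
  refine ⟨α, ρ, h1, ?_, ?_⟩
  · intro x hx e he
    obtain ⟨z, rfl⟩ := h.sub hx
    obtain ⟨e', rfl⟩ := exists_push hpr z e
    rw [← key z hx e']
    exact h.nonneg z hx e' he
  · obtain ⟨z, hz, hp⟩ := h.pos
    refine ⟨pr z, hz, fun e he => ?_⟩
    obtain ⟨e', rfl⟩ := exists_push hpr z e
    rw [← key z hz e']
    exact hp e' he

/-! ### Lifting -/

/-- the pull-back of a one-form -/
def lift1 (pr : Z → X) (α : Form (ES d) X 1) : Form (ES d) Z 1 := fun z =>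
  (α (pr z)).compContinuousLinearMap (mfderiv 𝓘(ℝ, ES d) 𝓘(ℝ, ES d) pr z)

omit [IsManifold 𝓘(ℝ, ES d) ∞ Z] [IsManifold 𝓘(ℝ, ES d) ∞ X] in
theorem mfderiv_param {pr : Z → X} (hprs : ContMDiff 𝓘(ℝ, ES d) 𝓘(ℝ, ES d) ∞ pr)
    {U : Set (ES d)} {φ : ES d → Z} (hφ : SmoothParam U φ) {p : ES d} (hp : p ∈ U) :
    mfderiv 𝓘(ℝ, ES d) 𝓘(ℝ, ES d) (pr ∘ φ) p =
      (mfderiv 𝓘(ℝ, ES d) 𝓘(ℝ, ES d) pr (φ p)).comp (mfderiv 𝓘(ℝ, ES d) 𝓘(ℝ, ES d) φ p) :=
  mfderiv_comp p ((hprs (φ p)).mdifferentiableAt (by simp))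
    (((hφ.2 p hp).contMDiffAt (hφ.1.mem_nhds hp)).mdifferentiableAt (by simp))

omit [IsManifold 𝓘(ℝ, ES d) ∞ Z] [IsManifold 𝓘(ℝ, ES d) ∞ X] in
theorem pb_lift1 {pr : Z → X} (hprs : ContMDiff 𝓘(ℝ, ES d) 𝓘(ℝ, ES d) ∞ pr)
    (α : Form (ES d) X 1) {U : Set (ES d)} {φ : ES d → Z} (hφ : SmoothParam U φ) {p : ES d}
    (hp : p ∈ U) : pb φ (lift1 pr α) p = pb (pr ∘ φ) α p := by
  have h := mfderiv_param hprs hφ hp
  ext u
  change α (pr (φ p)) _ = α (pr (φ p)) (fun i => mfderiv 𝓘(ℝ, ES d) 𝓘(ℝ, ES d) (pr ∘ φ) p (u i))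
  rw [h]
  rfl

omit [IsManifold 𝓘(ℝ, ES d) ∞ Z] [IsManifold 𝓘(ℝ, ES d) ∞ X] in
theorem pb_lift2 {pr : Z → X} (hprs : ContMDiff 𝓘(ℝ, ES d) 𝓘(ℝ, ES d) ∞ pr)
    (α : Form (ES d) X 2) {U : Set (ES d)} {φ : ES d → Z} (hφ : SmoothParam U φ) {p : ES d}
    (hp : p ∈ U) : pb φ (lift pr α) p = pb (pr ∘ φ) α p := by
  have h := mfderiv_param hprs hφ hp
  ext u
  change α (pr (φ p)) _ = α (pr (φ p)) (fun i => mfderiv 𝓘(ℝ, ES d) 𝓘(ℝ, ES d) (pr ∘ φ) p (u i))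
  rw [h]
  rfl

omit [IsManifold 𝓘(ℝ, ES d) ∞ Z] [IsManifold 𝓘(ℝ, ES d) ∞ X] in
theorem param_comp {pr : Z → X} (hprs : ContMDiff 𝓘(ℝ, ES d) 𝓘(ℝ, ES d) ∞ pr)
    {U : Set (ES d)} {φ : ES d → Z} (hφ : SmoothParam U φ) : SmoothParam U (pr ∘ φ) :=
  ⟨hφ.1, hprs.comp_contMDiffOn hφ.2⟩

omit [IsManifold 𝓘(ℝ, ES d) ∞ Z] [IsManifold 𝓘(ℝ, ES d) ∞ X] in
theorem exactPair_lift {pr : Z → X} (hprs : ContMDiff 𝓘(ℝ, ES d) 𝓘(ℝ, ES d) ∞ pr)
    {α : Form (ES d) X 1} {ρ : Form (ES d) X 2} (h : ExactPair α ρ) :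
    ExactPair (lift1 pr α) (lift pr ρ) := by
  refine ⟨?_, ?_, ?_⟩
  · intro U φ hφ
    exact (h.smooth U _ (param_comp hprs hφ)).congr fun p hp => pb_lift1 hprs α hφ hp
  · intro U φ hφ
    exact (h.smooth_d U _ (param_comp hprs hφ)).congr fun p hp => pb_lift2 hprs ρ hφ hp
  · intro U φ hφ p hp
    rw [pb_lift2 hprs ρ hφ hp, ← h.isD U _ (param_comp hprs hφ) p hp]
    apply Filter.EventuallyEq.extDeriv_eq
    filter_upwards [hφ.1.mem_nhds hp] with q hq using pb_lift1 hprs α hφ hq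

omit [IsManifold 𝓘(ℝ, ES d) ∞ Z] [IsManifold 𝓘(ℝ, ES d) ∞ X] in
theorem bounded_lift {pr : Z → X} (hpr : OpenCovering (ES d) Γ pr)
    {α : Form (ES d) X 1} (h : IsSmooth α) : BoundedTranslates1 Γ (lift1 pr α) := by
  have hprs : ContMDiff 𝓘(ℝ, ES d) 𝓘(ℝ, ES d) ∞ pr := hpr.diffeo.contMDiff
  intro U φ hφ
  have hγ : ∀ γ : Γ, SmoothParam U (fun p => γ • φ p) := fun γ =>
    ⟨hφ.1, (hpr.smooth γ).comp_contMDiffOn hφ.2⟩
  have hcomp : ∀ γ : Γ, pr ∘ (fun p => γ • φ p) = pr ∘ φ := by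
    intro γ
    funext p
    exact ((hpr.orbits (φ p) (γ • φ p)).2 ⟨γ, rfl⟩).symm
  set g := pb (pr ∘ φ) α with hg
  have key : ∀ γ : Γ, ∀ p ∈ U, pb (fun p => γ • φ p) (lift1 pr α) p = g p := by
    intro γ p hp
    rw [pb_lift1 hprs α (hγ γ) hp, hcomp]
  have hs : ContDiffOn ℝ ∞ g U := h U _ (param_comp hprs hφ)
  refine ⟨fun γ => hs.congr fun p hp => key γ p hp, fun n p hp => ?_⟩
  have hU := hφ.1
  have hc : ContinuousOn (iteratedFDeriv ℝ n g) U := by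
    intro q hq
    have h1 : ContDiffAt ℝ ∞ g q := (hs q hq).contDiffAt (hU.mem_nhds hq)
    exact (h1.iteratedFDeriv_right (m := 0) (i := n) (by
      rw [zero_add]; exact_mod_cast le_top)).continuousAt.continuousWithinAt
  have h2 : ContinuousAt (fun q => ‖iteratedFDeriv ℝ n g q‖) p :=
    (hc.continuousAt (hU.mem_nhds hp)).norm
  refine ⟨{q | ‖iteratedFDeriv ℝ n g q‖ < ‖iteratedFDeriv ℝ n g p‖ + 1} ∩ U,
    Filter.inter_mem (h2.eventually (gt_mem_nhds (lt_add_one _))) (hU.mem_nhds hp),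
    ‖iteratedFDeriv ℝ n g p‖ + 1, ?_⟩
  rintro q ⟨hq, hqU⟩ γ
  have h3 : pb (fun p => γ • φ p) (lift1 pr α) =ᶠ[𝓝 q] g := by
    filter_upwards [hU.mem_nhds hqU] with r hr using key γ r hr
  rw [(h3.iteratedFDeriv ℝ n).self_of_nhds]
  exact hq.le

/-- the orbit functions of lifted forms are constant -/
theorem orbit_lift {pr : Z → X} (hpr : OpenCovering (ES d) Γ pr) (σ ζ ρ : Form (ES d) X 2)
    (z : Z) (e : Fam (ES d) m z) (γ : Γ) :
    orbit Γ pr m σ (addF (lift pr ζ) (lift pr ρ)) z e γ =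
      mixed m σ (pr z) (addF ζ ρ (pr z)) (push pr z e) := by
  have hprs : ContMDiff 𝓘(ℝ, ES d) 𝓘(ℝ, ES d) ∞ pr := hpr.diffeo.contMDiff
  have hinv : lift (fun z : Z => γ • z) (lift pr (addF ζ ρ)) = lift pr (addF ζ ρ) :=
    SY.pull_inv (d := d) (Z := Z) (X := X) (Γ := Γ) hpr.smooth (pr := pr) hprs
      (fun γ z => ((hpr.orbits z (γ • z)).2 ⟨γ, rfl⟩).symm) (addF ζ ρ) γ
  rw [orbit_eq hpr, ← mixed_lift]
  unfold mixed
  rw [wedge_cons]
  refine Finset.sum_congr rfl fun π _ => ?_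
  congr 1
  have h1 : translate γ (addF (lift pr ζ) (lift pr ρ)) z =
      lift (fun z : Z => γ • z) (lift pr (addF ζ ρ)) z := rfl
  rw [h1, hinv]

/-- lifting a positive form -/
theorem lift_pos {pr : Z → X} (hpr : OpenCovering (ES d) Γ pr) {vol : TopForm (ES d) X m}
    (σ ζ : Form (ES d) X 2) {α : Form (ES d) X 1} {ρ : Form (ES d) X 2} (h : ExactPair α ρ)
    (hp : PosOnDeg vol σ (addF ζ ρ)) :
    ∃ (β : Form (ES d) Z 1) (η : Form (ES d) Z 2), ExactPair β η ∧ BoundedTranslates1 Γ β ∧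
      ∀ z : Z, pr z ∈ Deg m σ → ∀ e : Fam (ES d) m z, 0 < vol (pr z) (push pr z e) →
        AvgPos (orbit Γ pr m σ (addF (lift pr ζ) η) z e) := by
  have hprs : ContMDiff 𝓘(ℝ, ES d) 𝓘(ℝ, ES d) ∞ pr := hpr.diffeo.contMDiff
  exact ⟨lift1 pr α, lift pr ρ, exactPair_lift hprs h, bounded_lift hpr h.smooth,
    fun z hz e he => avgPos_const (hp (pr z) hz (push pr z e) he) fun γ =>
      orbit_lift hpr σ ζ ρ z e γ⟩

end main

section final

attribute [local instance] Pool.Agent.Y501.SYP.cs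
attribute [local instance] Pool.Agent.Y501.SYP.mf

theorem NormalCovering.openCovering {V : Type} [NormedAddCommGroup V] [NormedSpace ℝ V]
    {Z X : Type} [TopologicalSpace Z] [ChartedSpace V Z] [TopologicalSpace X] [ChartedSpace V X]
    {Γ : Type} [Group Γ] [MulAction Γ Z] {pr : Z → X} (h : NormalCovering V Γ pr) :
    OpenCovering V Γ pr := ⟨h.smooth, h.diffeo, h.orbits⟩

/-- the trivial action -/
@[reducible] def trivAct (X : Type) : MulAction Unit X where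
  smul _ x := x
  one_smul _ := rfl
  mul_smul _ _ _ := rfl

theorem amenable_unit : Amenable Unit :=
  ⟨fun F => F 1, ⟨fun _ _ _ _ => rfl, fun _ _ _ => rfl, fun F _ h => h 1, rfl,
    fun _ _ _ => rfl⟩⟩

variable {m d : ℕ} {X : Type} [TopologicalSpace X] [ChartedSpace (ES d) X]
  [IsManifold 𝓘(ℝ, ES d) ∞ X] [CompactSpace X] [T2Space X]

theorem tfae (hd : d = 2 * (m + 1)) (vol : TopForm (ES d) X m)
    (hvol : IsVolume vol) (σ ζ : Form (ES d) X 2) (hσ : IsClosed2 σ) (hζ : IsClosed2 ζ)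
    (hnn : TopNonneg vol σ) :
    List.TFAE [
      ∃ (α : Form (ES d) X 1) (ρ : Form (ES d) X 2) (c : ℝ), ExactPair α ρ ∧
        SymplecticUpTo vol σ (addF ζ ρ) c,
      ∀ C : Set X, TestSet vol σ C → AvgTest vol σ ζ C,
      ∀ C : Set X, TestSet vol σ C → MeanTest vol σ ζ C] := by
  tfae_have 1 → 2 := by
    intro h C hC
    rw [posOnDeg_sympl hd hvol hσ hζ hnn] at h
    obtain ⟨α, ρ, hα, hp⟩ := h
    letI := trivAct X
    have hpr : OpenCovering (ES d) Unit (id : X → X) := by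
      refine ⟨fun _ => contMDiff_id, ?_, fun z z' => ⟨fun h => ⟨1, h⟩, fun ⟨_, h⟩ => h⟩⟩
      exact (Diffeomorph.refl 𝓘(ℝ, ES d) X ∞).isLocalDiffeomorph
    obtain ⟨β, η, h1, h2, h3⟩ := lift_pos hpr (vol := vol) σ ζ hα hp
    obtain ⟨x, hx⟩ := hC.nonempty
    exact ⟨X, _, _, inferInstance, Unit, _, _, id, β, η, amenable_unit, hpr, h1, h2,
      ⟨fun x _ => ⟨x, rfl⟩, fun z hz e he => (h3 z (hC.deg hz) e he).nonneg, x, hx,
        fun e he => h3 x (hC.deg hx) e he⟩⟩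
  tfae_have 2 → 3 := by
    intro h C hC
    obtain ⟨Z, i1, i2, i3, Γ, i4, i5, pr, β, η, ⟨μ, hμ⟩, hpr, hβ, hbt, hs⟩ := h C hC
    obtain ⟨-, -, -, h4, -⟩ := avg hμ hpr hβ hbt hC.compact.isClosed hs.sub
    have hb := fun z e => bdd_orbit (m := m) hpr σ ζ (η := η) z (h4 z) e
    refine ⟨Z, i1, i2, i3, Γ, i4, i5, pr, β, η, μ, hμ, hpr, hβ, hbt, hs.sub,
      fun z hz e he => (hs.nonneg z hz e he).mean hμ (hb z e), ?_⟩
    obtain ⟨z, hz, hp⟩ := hs.pos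
    exact ⟨z, hz, fun e he => (hp e he).mean hμ (hb z e)⟩
  tfae_have 3 → 1 := by
    intro h
    rw [tests hd vol hvol σ hσ hnn ζ hζ]
    intro C hC
    obtain ⟨Z, i1, i2, i3, Γ, i4, i5, pr, β, η, μ, hμ, hpr, hβ, hbt, hs⟩ := h C hC
    exact descend hμ hpr σ ζ hβ hbt hC.compact.isClosed hs
  tfae_finish

theorem global (hd : d = 2 * (m + 1)) (vol : TopForm (ES d) X m)
    (hvol : IsVolume vol) (σ ζ : Form (ES d) X 2) (hσ : IsClosed2 σ) (hζ : IsClosed2 ζ)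
    (hnn : TopNonneg vol σ) (Z : Type) [TopologicalSpace Z] [ChartedSpace (ES d) Z]
    [IsManifold 𝓘(ℝ, ES d) ∞ Z] (Γ : Type) [Group Γ] [MulAction Γ Z] (hΓ : Amenable Γ)
    (pr : Z → X) (hpr : NormalCovering (ES d) Γ pr) :
    (∃ (α : Form (ES d) X 1) (ρ : Form (ES d) X 2) (c : ℝ), ExactPair α ρ ∧
        SymplecticUpTo vol σ (addF ζ ρ) c) ↔
      ∃ (β : Form (ES d) Z 1) (η : Form (ES d) Z 2), ExactPair β η ∧
        BoundedTranslates1 Γ β ∧ ∀ z : Z, pr z ∈ Deg m σ → ∀ e : Fam (ES d) m z,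
          0 < vol (pr z) (push pr z e) →
            AvgPos (orbit Γ pr m σ (addF (lift pr ζ) η) z e) := by
  constructor
  · intro h
    rw [posOnDeg_sympl hd hvol hσ hζ hnn] at h
    obtain ⟨α, ρ, hα, hp⟩ := h
    exact lift_pos (NormalCovering.openCovering hpr) σ ζ hα hp
  · rintro ⟨β, η, hβ, hbt, hp⟩
    refine ((tfae hd vol hvol σ ζ hσ hζ hnn).out 0 1).2 fun C hC => ?_
    obtain ⟨x, hx⟩ := hC.nonempty
    obtain ⟨z, rfl⟩ := hpr.surj x
    exact ⟨Z, _, _, inferInstance, Γ, _, _, pr, β, η, hΓ, NormalCovering.openCovering hpr, hβ,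
      hbt, fun x _ => hpr.surj x, fun z hz e he => (hp z (hC.deg hz) e he).nonneg, z, hx,
      fun e he => hp z (hC.deg hx) e he⟩

/-- all conditions together -/
theorem tfae4 (hd : d = 2 * (m + 1)) (vol : TopForm (ES d) X m)
    (hvol : IsVolume vol) (σ ζ : Form (ES d) X 2) (hσ : IsClosed2 σ) (hζ : IsClosed2 ζ)
    (hnn : TopNonneg vol σ) (Z : Type) [TopologicalSpace Z] [ChartedSpace (ES d) Z]
    [IsManifold 𝓘(ℝ, ES d) ∞ Z] (Γ : Type) [Group Γ] [MulAction Γ Z] (hΓ : Amenable Γ)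
    (pr : Z → X) (hpr : NormalCovering (ES d) Γ pr) :
    List.TFAE [
      ∃ (α : Form (ES d) X 1) (ρ : Form (ES d) X 2) (c : ℝ), ExactPair α ρ ∧
        SymplecticUpTo vol σ (addF ζ ρ) c,
      ∃ (β : Form (ES d) Z 1) (η : Form (ES d) Z 2), ExactPair β η ∧
        BoundedTranslates1 Γ β ∧ ∀ z : Z, pr z ∈ Deg m σ → ∀ e : Fam (ES d) m z,
          0 < vol (pr z) (push pr z e) → AvgPos (orbit Γ pr m σ (addF (lift pr ζ) η) z e),
      ∀ C : Set X, TestSet vol σ C → AvgTest vol σ ζ C,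
      ∀ C : Set X, TestSet vol σ C → MeanTest vol σ ζ C] := by
  have h := tfae hd vol hvol σ ζ hσ hζ hnn
  tfae_have 1 ↔ 2 := global hd vol hvol σ ζ hσ hζ hnn Z Γ hΓ pr hpr
  tfae_have 1 ↔ 3 := h.out 0 1
  tfae_have 1 ↔ 4 := h.out 0 2
  tfae_finish

end final

end Pool.Agent.K3h41.SYA
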