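import Pool.Agent.R772.PubM
import Pool.Agent.Y501.SY.PubU

/-!
Two-forms with nonnegative top power and amenable coverings: the definitions used in the statement.
-/

set_option autoImplicit false

open Set Filter Topology MeasureTheory
open scoped Manifold ContDiff

noncomputable section

namespace Pool.Agent.K3h41.SYA

open Pool.Agent.Y501.SYP
open Pool.Agent.R772.SYK
open Pool.Agent.R772.SYF

/-- The averages of `F` over the sets `γ S`, `γ ∈ Γ`, are at least `- ε` for some nonempty finite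
set `S`; such a set exists for every positive `ε`. -/
def AvgNonneg {Γ : Type} [Group Γ] (F : Γ → ℝ) : Prop :=
  ∀ ε : ℝ, 0 < ε → ∃ S : Finset Γ, S.Nonempty ∧ ∀ γ : Γ, -(ε * S.card) ≤ ∑ s ∈ S, F (γ * s)

/-- For some nonempty finite set `S` and some positive `c`, all averages of `F` over the sets
`γ S`, `γ ∈ Γ`, are at least `c`. -/
def AvgPos {Γ : Type} [Group Γ] (F : Γ → ℝ) : Prop :=
  ∃ c : ℝ, 0 < c ∧ ∃ S : Finset Γ, S.Nonempty ∧ ∀ γ : Γ, c * S.card ≤ ∑ s ∈ S, F (γ * s)

section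

variable {V : Type} [NormedAddCommGroup V] [NormedSpace ℝ V]
  {Z X : Type} [TopologicalSpace Z] [ChartedSpace V Z]
  [TopologicalSpace X] [ChartedSpace V X]

/-- the images of the tangent vectors `e k` at `z` under the differential of `f` -/
def push {m : ℕ} (f : Z → X) (z : Z) (e : Fam V m z) : Fam V m (f z) :=
  fun k => mfderiv 𝓘(ℝ, V) 𝓘(ℝ, V) f z (e k)

/-- The values of the form `w ∧ (pr^* σ) ^ m` on the translates `γ e` of the family `e` of tangent
vectors at `z`, as a function of `γ`. -/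
def orbit (Γ : Type) [Group Γ] [MulAction Γ Z] (pr : Z → X) (m : ℕ) (σ : Form V X 2)
    (w : Form V Z 2) (z : Z) (e : Fam V m z) : Γ → ℝ :=
  fun γ => mixed m (lift pr σ) (γ • z) (w (γ • z)) (push (fun z : Z => γ • z) z e)

variable (V) in
/-- `pr : Z → X` is a smooth local diffeomorphism, `Γ` acts on `Z` by smooth maps and the orbits of
`Γ` are the fibres of `pr`; the image of `pr` is an open subset of `X`. -/
structure OpenCovering (Γ : Type) [Group Γ] [MulAction Γ Z] (pr : Z → X) : Prop where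
  smooth : ∀ γ : Γ, ContMDiff 𝓘(ℝ, V) 𝓘(ℝ, V) ∞ (fun z : Z => γ • z)
  diffeo : IsLocalDiffeomorph 𝓘(ℝ, V) 𝓘(ℝ, V) ∞ pr
  orbits : ∀ z z' : Z, pr z = pr z' ↔ ∃ γ : Γ, γ • z = z'

/-- The orbit functions of `w ∧ (pr^* σ) ^ m` on positive families have the property `P₀` over all
points of `C`, and the property `P₁` over some point of `C`; and `C` is contained in the image of
`pr`. -/
structure SemiPosOver (Γ : Type) [Group Γ] [MulAction Γ Z] (P₀ P₁ : (Γ → ℝ) → Prop) (pr : Z → X)
    {m : ℕ} (vol : TopForm V X m) (σ : Form V X 2) (w : Form V Z 2) (C : Set X) : Prop where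
  sub : C ⊆ range pr
  nonneg : ∀ z : Z, pr z ∈ C → ∀ e : Fam V m z, 0 < vol (pr z) (push pr z e) →
    P₀ (orbit Γ pr m σ w z e)
  pos : ∃ z : Z, pr z ∈ C ∧ ∀ e : Fam V m z, 0 < vol (pr z) (push pr z e) →
    P₁ (orbit Γ pr m σ w z e)

/-- There are a covering `pr : Z → X` of an open subset of `X` containing `C`, with amenable group
`Γ`, and a smooth one-form `β` on `Z` with bounded translates, such that
`(pr^* ζ + dβ) ∧ (pr^* σ) ^ m` is semipositive over `C` on average. -/
def AvgTest {m : ℕ} (vol : TopForm V X m) (σ ζ : Form V X 2) (C : Set X) : Prop :=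
  ∃ (Z : Type) (_ : TopologicalSpace Z) (_ : ChartedSpace V Z)
    (_ : IsManifold 𝓘(ℝ, V) ∞ Z) (Γ : Type) (_ : Group Γ) (_ : MulAction Γ Z) (pr : Z → X)
    (β : Form V Z 1) (η : Form V Z 2),
    Amenable Γ ∧ OpenCovering V Γ pr ∧ ExactPair β η ∧ BoundedTranslates1 Γ β ∧
      SemiPosOver Γ AvgNonneg AvgPos pr vol σ (addF (lift pr ζ) η) C

/-- The same with the values of an invariant mean in place of finite averages. -/
def MeanTest {m : ℕ} (vol : TopForm V X m) (σ ζ : Form V X 2) (C : Set X) : Prop :=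
  ∃ (Z : Type) (_ : TopologicalSpace Z) (_ : ChartedSpace V Z)
    (_ : IsManifold 𝓘(ℝ, V) ∞ Z) (Γ : Type) (_ : Group Γ) (_ : MulAction Γ Z) (pr : Z → X)
    (β : Form V Z 1) (η : Form V Z 2) (μ : (Γ → ℝ) → ℝ),
    IsMean μ ∧ OpenCovering V Γ pr ∧ ExactPair β η ∧ BoundedTranslates1 Γ β ∧
      SemiPosOver Γ (fun F => 0 ≤ μ F) (fun F => 0 < μ F) pr vol σ (addF (lift pr ζ) η) C

end

end Pool.Agent.K3h41.SYA
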